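import Pool.Agent.Q165.VN.Stm

/-!
# Job VN-INNER (project VN of helper165): a parallelogram in a convex set of area one
-/

set_option autoImplicit false

namespace Pool.Agent.Q241.VN

open MeasureTheory Pool.Agent.Q165.VN

/-- a vertical chord at `x` of length `l` -/
def Ch (U : Set (ℝ × ℝ)) (x l : ℝ) : Prop := ∃ a : ℝ, (x, a) ∈ U ∧ (x, a + l) ∈ U

lemma mem_comb {U : Set (ℝ × ℝ)} (hU : Convex ℝ U) {x y x' y' s : ℝ} (h : (x, y) ∈ U) (h' : (x', y') ∈ U)
    (hs0 : 0 ≤ s) (hs1 : s ≤ 1) : ((1 - s) * x + s * x', (1 - s) * y + s * y') ∈ U := by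
  have := hU h h' (show (0:ℝ) ≤ 1 - s by linarith) hs0 (by ring)
  simpa using this

lemma par_sub {U : Set (ℝ × ℝ)} (hU : Convex ℝ U) {x1 x2 a1 a2 l : ℝ} (h1 : (x1, a1) ∈ U)
    (h1' : (x1, a1 + l) ∈ U) (h2 : (x2, a2) ∈ U) (h2' : (x2, a2 + l) ∈ U) :
    par ⟨(x1 + x2) / 2, (a1 + a2 + l) / 2, (x2 - x1) / 2, (a2 - a1) / 2, l / 2⟩ ⊆ U := by
  rintro p ⟨α, β, hα, hβ, rfl⟩
  rw [abs_le] at hα hβ
  have e1 := mem_comb hU h1 h1' (s := (1 + β) / 2) (by linarith) (by linarith)
  have e2 := mem_comb hU h2 h2' (s := (1 + β) / 2) (by linarith) (by linarith)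
  have e3 := mem_comb hU e1 e2 (s := (1 + α) / 2) (by linarith) (by linarith)
  convert e3 using 2 <;> ring

theorem inner_open {U : Set (ℝ × ℝ)} (hU : Convex ℝ U) (ho : IsOpen U) (hv : 1 ≤ volume U) :
    ∃ q : P5, q.Good ∧ par q ⊆ U := by
  by_contra hcon
  push Not at hcon
  -- two chords
  have two : ∀ x1 x2 l : ℝ, 0 < l → Ch U x1 l → Ch U x2 l → |x1 - x2| * l < 4 / 100 := by
    have key : ∀ x1 x2 l : ℝ, 0 < l → x1 < x2 → Ch U x1 l → Ch U x2 l → (x2 - x1) * l < 4 / 100 := by
      rintro x1 x2 l hl h12 ⟨a1, h1, h1'⟩ ⟨a2, h2, h2'⟩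
      by_contra hc
      push Not at hc
      refine hcon _ ⟨?_, ?_, ?_⟩ (par_sub hU h1 h1' h2 h2')
      · show 0 < (x2 - x1) / 2
        linarith
      · show 0 < l / 2
        linarith
      · show 1 / 100 ≤ (x2 - x1) / 2 * (l / 2)
        nlinarith
    intro x1 x2 l hl h1 h2
    rcases lt_trichotomy x1 x2 with h | h | h
    · rw [abs_of_neg (by linarith)]
      have := key x1 x2 l hl h h1 h2
      linarith
    · rw [h, sub_self, abs_zero, zero_mul]
      norm_num
    · rw [abs_of_pos (by linarith)]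
      exact key x2 x1 l hl h h2 h1
  have far : ∀ x0 L x y : ℝ, 0 < L → Ch U x0 L → (x, y) ∈ U → |x - x0| * L < 16 / 100 := by
    rintro x0 L x y hL ⟨a, h1, h2⟩ h3
    have e1 := mem_comb hU h1 h2 (s := 1 / 2) (by norm_num) (by norm_num)
    have e2 := mem_comb hU h1 h3 (s := 1 / 2) (by norm_num) (by norm_num)
    have e3 := mem_comb hU h2 h3 (s := 1 / 2) (by norm_num) (by norm_num)
    have := two ((x + x0) / 2) x0 (L / 2) (by linarith) ⟨(y + a) / 2, by
      convert e2 using 2 <;> ring, by convert e3 using 2 <;> ring⟩ ⟨a, h1, by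
      convert e1 using 2 <;> ring⟩
    have e4 : (x + x0) / 2 - x0 = (x - x0) / 2 := by ring
    rw [e4, abs_div, abs_of_pos (show (0:ℝ) < 2 by norm_num)] at this
    linarith
  -- a point and a small square
  have hne : U.Nonempty := by
    by_contra h
    rw [Set.not_nonempty_iff_eq_empty] at h
    rw [h, measure_empty] at hv
    simp at hv
  obtain ⟨⟨x, y⟩, hxy⟩ := hne
  obtain ⟨ε, hε, hball⟩ := Metric.isOpen_iff.mp ho _ hxy
  have hx' : (x + ε / 2, y) ∈ U := hball (by
    rw [Metric.mem_ball, Prod.dist_eq, Real.dist_eq, Real.dist_eq]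
    rw [show x + ε / 2 - x = ε / 2 by ring, sub_self, abs_zero, abs_of_pos (by positivity)]
    rw [max_lt_iff]
    constructor <;> linarith)
  have hy' : (x, y + ε / 2) ∈ U := hball (by
    rw [Metric.mem_ball, Prod.dist_eq, Real.dist_eq, Real.dist_eq]
    rw [show y + ε / 2 - y = ε / 2 by ring, sub_self, abs_zero, abs_of_pos (by positivity : (0:ℝ) < ε / 2)]
    rw [max_lt_iff]
    constructor <;> linarith)
  -- the lengths of the chords are bounded
  set S : Set ℝ := {L : ℝ | 0 < L ∧ ∃ x, Ch U x L} with hS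
  have hbdd : BddAbove S := by
    refine ⟨64 / (100 * ε), ?_⟩
    rintro L ⟨hL, x0, hc⟩
    have h1 := far x0 L x y hL hc hxy
    have h2 := far x0 L _ y hL hc hx'
    have h3 : ε / 2 ≤ |x - x0| + |x + ε / 2 - x0| := by
      have := abs_sub (x + ε / 2 - x0) (x - x0)
      rw [show x + ε / 2 - x0 - (x - x0) = ε / 2 by ring, abs_of_pos (by positivity)] at this
      linarith
    rw [le_div_iff₀ (by positivity)]
    nlinarith
  have hmem : ε / 2 ∈ S := ⟨by positivity, x, y, hxy, hy'⟩
  set H := sSup S with hH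
  have hHpos : 0 < H := lt_of_lt_of_le (by positivity) (le_csSup hbdd hmem)
  obtain ⟨L, ⟨hL, x0, hc⟩, hHL⟩ := exists_lt_of_lt_csSup ⟨_, hmem⟩ (show H / 2 < H by linarith)
  have hsub : ∀ x y, (x, y) ∈ U → x ∈ Set.Icc (x0 - 32 / (100 * H)) (x0 + 32 / (100 * H)) := by
    intro x y h
    have h1 := far x0 L x y hL hc h
    have h2 : |x - x0| ≤ 32 / (100 * H) := by
      rw [le_div_iff₀ (by positivity)]
      nlinarith [abs_nonneg (x - x0)]
    rw [abs_le] at h2
    constructor <;> linarith
  have hsec : ∀ x, volume (Prod.mk x ⁻¹' U) ≤ ENNReal.ofReal H := by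
    intro x
    refine (Real.volume_le_diam _).trans ?_
    refine Metric.ediam_le fun y hy z hz => ?_
    rw [edist_dist]
    refine ENNReal.ofReal_le_ofReal ?_
    rw [Real.dist_eq]
    rcases lt_trichotomy y z with h | h | h
    · rw [abs_of_neg (by linarith)]
      refine le_csSup hbdd ⟨by linarith, x, y, hy, ?_⟩
      rw [show y + -(y - z) = z by ring]
      exact hz
    · rw [h, sub_self, abs_zero]
      exact hHpos.le
    · rw [abs_of_pos (by linarith)]
      refine le_csSup hbdd ⟨by linarith, x, z, hz, ?_⟩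
      rw [show z + (y - z) = y by ring]
      exact hy
  have hfin : volume U ≤ ENNReal.ofReal (64 / 100) := by
    rw [Measure.volume_eq_prod, Measure.prod_apply ho.measurableSet]
    calc ∫⁻ x, volume (Prod.mk x ⁻¹' U)
        ≤ ∫⁻ x, (Set.Icc (x0 - 32 / (100 * H)) (x0 + 32 / (100 * H))).indicator (fun _ => ENNReal.ofReal H) x := by
          refine lintegral_mono fun x => ?_
          by_cases hx : x ∈ Set.Icc (x0 - 32 / (100 * H)) (x0 + 32 / (100 * H))
          · rw [Set.indicator_of_mem hx]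
            exact hsec x
          · rw [Set.indicator_of_notMem hx]
            have : Prod.mk x ⁻¹' U = ∅ := by
              rw [Set.eq_empty_iff_forall_notMem]
              intro y hy
              exact hx (hsub x y hy)
            rw [this, measure_empty]
      _ = ENNReal.ofReal (64 / 100) := by
          rw [lintegral_indicator measurableSet_Icc, setLIntegral_const, Real.volume_Icc,
            ← ENNReal.ofReal_mul hHpos.le]
          congr 1
          field_simp
          ring
  have : (1 : ENNReal) ≤ ENNReal.ofReal (64 / 100) := hv.trans hfin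
  rw [ENNReal.one_le_ofReal] at this
  norm_num at this

theorem INNER : Pool.Agent.Q165.VN.S_INNER := by
  intro K hK hv
  obtain ⟨q, hq, h⟩ := inner_open hK.interior isOpen_interior (by
    have h1 : K ⊆ interior K ∪ frontier K := by
      rw [← closure_eq_interior_union_frontier]
      exact subset_closure
    calc (1 : ENNReal) = volume K := hv.symm
      _ ≤ volume (interior K ∪ frontier K) := measure_mono h1
      _ ≤ volume (interior K) + volume (frontier K) := measure_union_le _ _
      _ = volume (interior K) := by rw [hK.addHaar_frontier volume, add_zero])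
  exact ⟨q, hq, h.trans interior_subset⟩

end Pool.Agent.Q241.VN
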