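import Pool.Agent.Q165.VN.Stm

/-!
# Job VN-TREE (project VN of helper165): separators in a tree of nested cells
-/

set_option autoImplicit false

namespace Pool.Agent.Q241.VN

open Finset Classical

variable {ι α : Type} {lev : ι → ℤ} {c : ℤ → ι → α}

/-- `i` and `j` are not separated by `N` -/
def Uns (lev : ι → ℤ) (c : ℤ → ι → α) (N : Finset (ℤ × α)) (i j : ι) : Prop :=
  ∃ n, lev i ≤ n ∧ lev j ≤ n ∧ c n i = c n j ∧
    ∀ n' ≤ n, (lev i ≤ n' → (n', c n' i) ∉ N) ∧ (lev j ≤ n' → (n', c n' j) ∉ N)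

lemma nest (hc : ∀ n i j, c n i = c n j → c (n + 1) i = c (n + 1) j) {n m : ℤ} (h : n ≤ m) {i j : ι}
    (hij : c n i = c n j) : c m i = c m j := by
  induction m, h using Int.le_induction with
  | base => exact hij
  | succ m _ ih => exact hc _ _ _ ih

lemma collect (hc : ∀ n i j, c n i = c n j → c (n + 1) i = c (n + 1) j) {i : ι} {J : Finset ι}
    (hJ : J.Nonempty) {Q : ℤ → Prop} (h : ∀ j ∈ J, ∃ n, Q n ∧ lev j ≤ n ∧ c n i = c n j) :
    ∃ n, Q n ∧ ∀ j ∈ J, lev j ≤ n ∧ c n j = c n i := by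
  choose! f hf using h
  obtain ⟨j0, hj0, hmax⟩ := J.exists_max_image f hJ
  exact ⟨f j0, (hf j0 hj0).1, fun j hj => ⟨(hf j hj).2.1.trans (hmax j hj),
    (nest hc (hmax j hj) (hf j hj).2.2).symm⟩⟩

theorem tree_aux (hc : ∀ n i j, c n i = c n j → c (n + 1) i = c (n + 1) j) {τ : ℝ} (hτ : 0 < τ) :
    ∀ (k : ℕ) (R : Finset ι), R.card = k → ∃ N : Finset (ℤ × α), (N.card : ℝ) * τ ≤ R.card ∧
      ∀ i ∈ R, ((R.filter fun j => Uns lev c N i j).card : ℝ) < τ := by
  intro k
  induction k using Nat.strong_induction_on with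
  | _ k ih =>
  intro R hR
  by_cases h0 : ∃ n : ℤ, ∃ ν : α, τ ≤ ((R.filter fun j => lev j ≤ n ∧ c n j = ν).card : ℝ)
  · obtain ⟨n0, ⟨ν0, h1⟩, hmin⟩ := Int.exists_least_of_bdd
      (P := fun n => ∃ ν : α, τ ≤ ((R.filter fun j => lev j ≤ n ∧ c n j = ν).card : ℝ)) (by
        rcases R.eq_empty_or_nonempty with rfl | hne
        · exfalso
          obtain ⟨n, ν, h⟩ := h0
          simp at h
          linarith
        · obtain ⟨j0, hj0, hm⟩ := R.exists_min_image lev hne
          refine ⟨lev j0, ?_⟩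
          rintro z ⟨ν, hz⟩
          have : (R.filter fun j => lev j ≤ z ∧ c z j = ν).Nonempty := by
            rw [← Finset.card_pos]
            have : (0:ℝ) < (R.filter fun j => lev j ≤ z ∧ c z j = ν).card := hτ.trans_le hz
            exact_mod_cast this
          obtain ⟨j, hj⟩ := this
          rw [mem_filter] at hj
          exact (hm j hj.1).trans hj.2.1) h0
    set R0 := R.filter fun j => lev j ≤ n0 ∧ c n0 j = ν0 with hR0
    have hR0s : R0 ⊆ R := filter_subset _ _
    have hsm : ∀ (n : ℤ) (ν : α), n < n0 → ((R.filter fun j => lev j ≤ n ∧ c n j = ν).card : ℝ) < τ := by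
      intro n ν hn
      by_contra hcon
      push Not at hcon
      exact absurd (hmin n ⟨ν, hcon⟩) (not_le.mpr hn)
    have hcard : (R \ R0).card = R.card - R0.card := card_sdiff_of_subset hR0s
    have hle : R0.card ≤ R.card := card_le_card hR0s
    have hpos : 0 < R0.card := by
      have : (0:ℝ) < R0.card := hτ.trans_le h1
      exact_mod_cast this
    obtain ⟨N', hN1, hN2⟩ := ih (R \ R0).card (by omega) (R \ R0) rfl
    refine ⟨insert (n0, ν0) N', ?_, ?_⟩
    · have e1 : ((insert (n0, ν0) N').card : ℝ) ≤ N'.card + 1 := by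
        exact_mod_cast card_insert_le _ _
      have e2 : ((R \ R0).card : ℝ) = R.card - R0.card := by
        rw [hcard]
        push_cast [Nat.cast_sub hle]
        ring
      nlinarith
    · -- monotonicity
      have hmono : ∀ i j, Uns lev c (insert (n0, ν0) N') i j → Uns lev c N' i j := by
        rintro i j ⟨n, h2, h3, h4, h5⟩
        refine ⟨n, h2, h3, h4, fun n' hn' => ⟨fun h6 h7 => ?_, fun h6 h7 => ?_⟩⟩
        · exact (h5 n' hn').1 h6 (mem_insert_of_mem h7)
        · exact (h5 n' hn').2 h6 (mem_insert_of_mem h7)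
      have hsym : ∀ (N : Finset (ℤ × α)) (i j : ι), Uns lev c N i j → Uns lev c N j i := by
        rintro N i j ⟨n, h2, h3, h4, h5⟩
        exact ⟨n, h3, h2, h4.symm, fun n' hn' => ⟨(h5 n' hn').2, (h5 n' hn').1⟩⟩
      -- (a)
      have ha : ∀ i ∈ R, i ∉ R0 → ∀ j ∈ R0, ¬ Uns lev c (insert (n0, ν0) N') i j := by
        rintro i hi hi0 j hj ⟨n, h2, h3, h4, h5⟩
        rw [hR0, mem_filter] at hj
        rcases le_or_gt n0 n with h6 | h6
        · refine (h5 n0 h6).2 hj.2.1 ?_
          rw [hj.2.2]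
          exact mem_insert_self _ _
        · refine hi0 ?_
          rw [hR0, mem_filter]
          exact ⟨hi, by omega, (nest hc h6.le h4).trans hj.2.2⟩
      intro i hi
      by_cases hi0 : i ∈ R0
      · -- (c)
        set J := R.filter fun j => Uns lev c (insert (n0, ν0) N') i j with hJ
        rcases J.eq_empty_or_nonempty with hJe | hJne
        · rw [hJe]; simpa using hτ
        · obtain ⟨n, hn, h2⟩ := collect (lev := lev) hc (i := i) hJne (Q := fun n => n < n0) (by
            intro j hj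
            rw [hJ, mem_filter] at hj
            obtain ⟨n, h2, h3, h4, h5⟩ := hj.2
            refine ⟨n, ?_, h3, h4⟩
            by_contra hcon
            push Not at hcon
            rw [hR0, mem_filter] at hi0
            refine (h5 n0 hcon).1 hi0.2.1 ?_
            rw [hi0.2.2]
            exact mem_insert_self _ _)
          refine lt_of_le_of_lt ?_ (hsm n (c n i) hn)
          exact_mod_cast card_le_card fun j hj => mem_filter.mpr ⟨(mem_filter.mp hj).1, h2 j hj⟩
      · -- (b)
        refine lt_of_le_of_lt ?_ (hN2 i (mem_sdiff.mpr ⟨hi, hi0⟩))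
        refine Nat.cast_le.mpr (card_le_card fun j hj => ?_)
        rw [mem_filter] at hj ⊢
        refine ⟨mem_sdiff.mpr ⟨hj.1, fun hj0 => ha i hi hi0 j hj0 hj.2⟩, hmono _ _ hj.2⟩
  · push Not at h0
    refine ⟨∅, by simp, fun i hi => ?_⟩
    set J := R.filter fun j => Uns lev c ∅ i j with hJ
    rcases J.eq_empty_or_nonempty with hJe | hJne
    · rw [hJe]; simpa using hτ
    · obtain ⟨n, hn, h2⟩ := collect (lev := lev) hc (i := i) hJne (Q := fun _ => True) (by
        intro j hj
        rw [hJ, mem_filter] at hj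
        obtain ⟨n, h2, h3, h4, h5⟩ := hj.2
        exact ⟨n, trivial, h3, h4⟩)
      refine lt_of_le_of_lt ?_ (h0 n (c n i))
      exact_mod_cast card_le_card fun j hj => mem_filter.mpr ⟨(mem_filter.mp hj).1, h2 j hj⟩

theorem TREE : Pool.Agent.Q165.VN.S_TREE := by
  intro ι α _ lev c hc τ hτ
  obtain ⟨N, h1, h2⟩ := tree_aux (lev := lev) hc hτ (univ : Finset ι).card univ rfl
  exact ⟨N, by rw [Finset.card_univ] at h1; exact h1, fun i => h2 i (mem_univ i)⟩

end Pool.Agent.Q241.VN
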